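import Pool.Agent.H78.TT.Stm

/-!
# The natural velocities of the base are not in a slab

`NDat2.NoSl`: in a chart (truncated: of the base coordinates `1, …, n'`) the natural velocities of
the base are not in a slab: there are no covector and no constant, functions of the closed context
at `(i, j)` and of the window `v`, such that the covector at the velocity is equal to the constant up
to `U z` digits, if `C₁ (t + v - j) ≤ U`.
-/

set_option autoImplicit false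

namespace Pool.STAT

open Finset MvPolynomial
open Pool.Agent.H49.Ent Pool.Agent.H32.Dense Pool.STK Pool.KS3
open Pool.BFL (Pb)

namespace NDat2

/-- **The natural velocities of the base are not in a slab.** The pivot `k` is any coordinate of the
base; the covector `ka` and the constant `al` are functions of the closed context at `(i, j)` and of
the window `v`. -/
def NoSl (D : NDat2) (n J w₀ z M K' : ℕ) (C₁ ϖ : ℝ) (q : D.Ω → ℝ) : Prop :=
  ∀ i j v t U n' : ℕ, i + 2 * U ≤ M → j + 2 * U ≤ M → j < v → v ≤ M → 1 ≤ t →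
    1 ≤ n' → n' < n → C₁ * ((t + (v - j) : ℕ) : ℝ) ≤ U → ∀ k, 1 ≤ k → k ≤ n' →
    ∀ (Q : D.Γ × ℕ → ℕ → PN) (A B : D.Λ × ℕ → ℕ → ℝ) (ka : D.Γ × ℕ → ℕ → ℝ) (al : D.Γ × ℕ → ℝ),
    (∀ c, ka c k = 1) → (∀ c l, 1 ≤ l → l ≤ n' → |ka c l| ≤ 1) →
    ∀ E : D.Ω → Prop, ϖ ≤ Pb q E → D.Cht n' K' J w₀ z i j v t U q E Q A B →
    ¬ ∀ ω, 0 < q ω → E ω →
      |∑ l ∈ Icc 1 n', ka (D.cT J (w₀ + v * z) i j ω) l * B (D.wn J (w₀ + v * z) ω) l -
        al (D.cT J (w₀ + v * z) i j ω)| ≤ 1 / 2 ^ (U * z)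

theorem NoSl.mono {D : NDat2} {n J w₀ z M K' K'' : ℕ} {C₁ C₁' ϖ ϖ' : ℝ} {q : D.Ω → ℝ}
    (h : D.NoSl n J w₀ z M K' C₁ ϖ q) (hK : K'' ≤ K') (hC : C₁ ≤ C₁') (hϖ : ϖ ≤ ϖ') :
    D.NoSl n J w₀ z M K'' C₁' ϖ' q := by
  intro i j v t U n' h1 h2 h3 h4 h5 h6 h7 h8 k k1 k2 Q A B ka al e1 e2 E hE hch
  have h9 : C₁ * ((t + (v - j) : ℕ) : ℝ) ≤ C₁' * ((t + (v - j) : ℕ) : ℝ) :=
    mul_le_mul_of_nonneg_right hC (Nat.cast_nonneg _)
  exact h i j v t U n' h1 h2 h3 h4 h5 h6 h7 (h9.trans h8) k k1 k2 Q A B ka al e1 e2 E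
    (hϖ.trans hE) (hch.mono hK)

/-- Smaller grids. -/
theorem NoSl.subM {D : NDat2} {n J w₀ z M M' K' : ℕ} {C₁ ϖ : ℝ} {q : D.Ω → ℝ}
    (h : D.NoSl n J w₀ z M K' C₁ ϖ q) (hM : M' ≤ M) : D.NoSl n J w₀ z M' K' C₁ ϖ q :=
  fun i j v t U n' h1 h2 h3 h4 => h i j v t U n' (h1.trans hM) (h2.trans hM) h3 (h4.trans hM)

end NDat2

end Pool.STAT
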